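import Pool.Agent.H20.TT

set_option autoImplicit false

namespace Pool.Agent.Results.MP_b8bcd1_lc.Direct
open Pool.Agent.H20.TT

/-- the branch has a crash-pair satisfying parity -/
def Par (B : List Node) : Prop :=
  ∃ z z' ζ, At B z ζ ∧ At B z' (.neg ζ) ∧
    ∀ c n p, B[c]? = some n → n.partner = some p → (Tr B z z' c ↔ Tr B z z' p)

/-- the branch has a crash-pair satisfying strengthened parity -/
def SPar (B : List Node) : Prop :=
  ∃ z z' ζ, At B z ζ ∧ At B z' (.neg ζ) ∧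
    ∀ c n p, B[c]? = some n → n.partner = some p → (Tr B z z' c ∧ Tr B z z' p)

/-- the branch `B` (root first) can be grown, without the recursive rule, into a finite tree all of whose
branches satisfy `C` -/
inductive Grow (C : List Node → Prop) : List Node → Prop
  | stop (B) : C B → Grow C B
  | and (B i φ ψ) : At B i (.and φ ψ) → Grow C (B ++ [⟨φ, [i], none⟩, ⟨ψ, [i], none⟩]) → Grow C B
  | nor (B i φ ψ) : At B i (.neg (.or φ ψ)) → Grow C (B ++ [⟨.neg φ, [i], none⟩, ⟨.neg ψ, [i], none⟩]) → Grow C B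
  | nn (B i φ) : At B i (.neg (.neg φ)) → Grow C (B ++ [⟨φ, [i], none⟩]) → Grow C B
  | nand (B i φ ψ) : At B i (.neg (.and φ ψ)) → Grow C (B ++ [⟨.neg φ, [i], none⟩]) →
      Grow C (B ++ [⟨.neg ψ, [i], none⟩]) → Grow C B
  | or (B i φ ψ) : At B i (.or φ ψ) → Grow C (B ++ [⟨φ, [i], none⟩]) → Grow C (B ++ [⟨ψ, [i], none⟩]) → Grow C B
  | mp (B i j φ ψ) : At B i φ → At B j (.imp φ ψ) → Grow C (B ++ [⟨ψ, [i, j], none⟩]) → Grow C B
  | cc (B i φ ψ) : At B i (.neg (.imp φ ψ)) →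
      Grow C (B ++ [⟨φ, [i], some (B.length + 1)⟩, ⟨.neg ψ, [i], some B.length⟩]) → Grow C B

def DA (φ : Fm) : Prop := Grow Par [⟨.neg φ, [], none⟩]
def DAs (φ : Fm) : Prop := Grow SPar [⟨.neg φ, [], none⟩]

abbrev lt (s : Bool) : Fm := .var (if s then 0 else 1)
abbrev tl (s : Bool) : Fm := if s then .var 2 else .neg (.var 2)
abbrev th (s : Bool) : Fm := .imp (.neg (lt s)) (tl s)
abbrev dj (s : Bool) : Fm := .or (lt s) (th s)
abbrev im (s : Bool) : Fm := .imp (dj s) (lt s)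
abbrev φ0 : Fm := .or (im true) (im false)

def good (s : Bool) (φ : Fm) : Prop :=
  φ = .neg φ0 ∨ φ = .neg (im !s) ∨ φ = dj (!s) ∨ φ = .neg (lt !s) ∨ φ = lt !s
def bad (s : Bool) (φ : Fm) : Prop :=
  φ = .neg (im s) ∨ φ = dj s ∨ φ = .neg (lt s) ∨ φ = th s ∨ φ = tl s

def J (s : Bool) (B : List Node) : Prop := ∀ (m : ℕ) (n : Node), B[m]? = some n →
  bad s n.fm ∨ good s n.fm ∧ ∀ i ∈ n.inp, ∃ φ, At B i φ ∧ good s φ
def K (s : Bool) (B : List Node) : Prop := ∃ (c : ℕ) (n : Node) (p : ℕ), B[c]? = some n ∧ n.partner = some p ∧ bad s n.fm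

lemma at_app {B i φ} (h : At B i φ) (C : List Node) : At (B ++ C) i φ := by
  have := h.lt
  obtain ⟨n, h, h'⟩ := h
  exact ⟨n, by rwa [List.getElem?_append_left this], h'⟩

lemma J.app {s B} (h : J s B) (C : List Node)
    (hC : ∀ n ∈ C, bad s n.fm ∨ good s n.fm ∧ ∀ i ∈ n.inp, ∃ φ, At B i φ ∧ good s φ) : J s (B ++ C) := by
  intro m n hm
  have : bad s n.fm ∨ good s n.fm ∧ ∀ i ∈ n.inp, ∃ φ, At B i φ ∧ good s φ := by
    by_cases hl : m < B.length
    · exact h m n (by rwa [List.getElem?_append_left hl] at hm)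
    · rw [List.getElem?_append_right (by omega)] at hm
      exact hC n (List.mem_of_getElem? hm)
  exact this.imp id fun ⟨a, b⟩ => ⟨a, fun i hi => (b i hi).imp fun φ ⟨c, d⟩ => ⟨at_app c C, d⟩⟩

lemma K.app {s B} (h : K s B) (C : List Node) : K s (B ++ C) := by
  obtain ⟨c, n, p, h1, h2⟩ := h
  exact ⟨c, n, p, by rwa [List.getElem?_append_left (List.getElem?_eq_some_iff.1 h1).1], h2⟩

lemma J.at {s B i φ} (h : J s B) (hi : At B i φ) : bad s φ ∨ good s φ := by
  obtain ⟨n, h1, rfl⟩ := hi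
  exact (h i n h1).imp id And.left

lemma disj {s φ} (h : bad s φ) : ¬ good s φ := by
  cases s <;> rcases h with rfl | rfl | rfl | rfl | rfl <;> simp [good, tl]

lemma main {B} (h : Grow SPar B) (s : Bool) : J s B → ¬ K s B := by
  induction h with
  | stop B h =>
    rintro hJ ⟨c, n, p, h1, h2, h3⟩
    obtain ⟨z, z', ζ, a, b, e⟩ := h
    have h4 : good s ζ ∧ good s (.neg ζ) := by
      have a1 := hJ.at a
      have a2 := hJ.at b
      cases s <;> simp only [good, bad, tl] at a1 a2 ⊢ <;>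
        rcases a1 with (rfl | rfl | rfl | rfl | rfl) | (rfl | rfl | rfl | rfl | rfl) <;> simp [tl] at a2 ⊢
    have h5 : ∀ m, Tr B z z' m → ∃ φ, At B m φ ∧ good s φ := by
      intro m hm
      induction hm with
      | left => exact ⟨_, a, h4.1⟩
      | right => exact ⟨_, b, h4.2⟩
      | step m i n _ hn hi ih =>
        obtain ⟨φ, ⟨n', a1, rfl⟩, a2⟩ := ih
        obtain rfl : n = n' := Option.some.inj (hn.symm.trans a1)
        exact ((hJ m n hn).resolve_left fun h => disj h a2).2 i hi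
    obtain ⟨φ, ⟨n', a1, rfl⟩, a2⟩ := h5 c (e c n p h1 h2).1
    obtain rfl : n = n' := Option.some.inj (h1.symm.trans a1)
    exact disj h3 a2
  | and B i φ ψ h _ ih => intro hJ; have := hJ.at h; cases s <;> simp [good, bad, tl] at this
  | nn B i φ h _ ih => intro hJ; have := hJ.at h; cases s <;> simp [good, bad, tl] at this
  | nand B i φ ψ h _ _ _ _ => intro hJ; have := hJ.at h; cases s <;> simp [good, bad, tl] at this
  | nor B i φ ψ h _ ih =>
    refine fun hJ hK => ih (hJ.app _ ?_) (hK.app _)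
    have := hJ.at h
    obtain ⟨rfl, rfl⟩ : φ = im true ∧ ψ = im false := by cases s <;> simpa [good, bad, tl] using this
    have h' : ∃ φ, At B i φ ∧ good s φ := ⟨_, h, .inl rfl⟩
    cases s <;> simp [good, bad, tl] <;> exact h'
  | or B i φ ψ h _ _ ih1 ih2 =>
    intro hJ hK
    have := hJ.at h
    obtain ⟨rfl, rfl⟩ | ⟨rfl, rfl⟩ : φ = lt s ∧ ψ = th s ∨ φ = lt (!s) ∧ ψ = th !s := by
      cases s <;> simpa [good, bad, tl] using this
    · exact ih2 (hJ.app _ (by simp [bad])) (hK.app _)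
    · have h' : ∃ φ, At B i φ ∧ good s φ := ⟨_, h, by simp [good]⟩
      exact ih1 (hJ.app _ (by simpa [good] using .inr h')) (hK.app _)
  | mp B i j φ ψ h h' _ ih =>
    refine fun hJ hK => ih (hJ.app _ ?_) (hK.app _)
    have := hJ.at h'
    obtain ⟨-, rfl⟩ : φ = .neg (lt s) ∧ ψ = tl s := by cases s <;> simpa [good, bad, tl] using this
    simp [bad]
  | cc B i φ ψ h _ ih =>
    refine fun hJ hK => ih (hJ.app _ ?_) (hK.app _)
    have := hJ.at h
    obtain ⟨rfl, rfl⟩ | ⟨rfl, rfl⟩ : φ = dj s ∧ ψ = lt s ∨ φ = dj (!s) ∧ ψ = lt !s := by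
      cases s <;> simpa [good, bad, tl] using this
    · simp [bad]
    · have h' : ∃ φ, At B i φ ∧ good s φ := ⟨_, h, by simp [good]⟩
      simpa [good] using ⟨.inr h', .inr h'⟩

lemma start {B} (h : Grow SPar B) : (∀ s, J s B) →
    (∀ i φ, At B i φ → φ = .neg φ0 ∨ ∃ s, φ = .neg (im s)) → False := by
  induction h with
  | stop B h =>
    obtain ⟨z, z', ζ, a, b, -⟩ := h
    intro _ h0
    rcases h0 _ _ a with rfl | ⟨s, rfl⟩ <;> simpa using h0 _ _ b
  | and B i φ ψ h _ ih => exact fun _ h0 => by simpa using h0 _ _ h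
  | nn B i φ h _ ih => exact fun _ h0 => by simpa using h0 _ _ h
  | nand B i φ ψ h _ _ _ _ => exact fun _ h0 => by simpa using h0 _ _ h
  | or B i φ ψ h _ _ _ _ => exact fun _ h0 => by simpa using h0 _ _ h
  | mp B i j φ ψ _ h _ ih => exact fun _ h0 => by simpa using h0 _ _ h
  | nor B i φ ψ h _ ih =>
    intro hJ h0
    obtain ⟨rfl, rfl⟩ : φ = im true ∧ ψ = im false := by simpa using h0 _ _ h
    refine ih (fun s => (hJ s).app _ ?_) ?_
    · have h' : ∃ φ, At B i φ ∧ good s φ := ⟨_, h, .inl rfl⟩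
      cases s <;> simp [good, bad, tl] <;> exact h'
    · rintro m _ ⟨n, hm, rfl⟩
      by_cases hl : m < B.length
      · exact h0 m _ ⟨n, by rwa [List.getElem?_append_left hl] at hm, rfl⟩
      · rw [List.getElem?_append_right (by omega)] at hm
        have := List.mem_of_getElem? hm
        simp only [List.mem_cons, List.not_mem_nil, or_false] at this
        rcases this with rfl | rfl
        exacts [.inr ⟨true, rfl⟩, .inr ⟨false, rfl⟩]
  | cc B i φ ψ h hg _ =>
    intro hJ h0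
    obtain ⟨s, rfl, rfl⟩ : ∃ s, φ = dj s ∧ ψ = lt s := by simpa using h0 _ _ h
    exact main hg s ((hJ s).app _ (by simp [bad])) ⟨B.length, ⟨_, _, _⟩, _, by simp; exact ⟨rfl, rfl, rfl⟩, rfl,
      by simp [bad]⟩

lemma par {B : List Node} {z z' ζ} (S : List ℕ) (h1 : At B z ζ) (h2 : At B z' (.neg ζ)) (a : z ∈ S ∧ z' ∈ S)
    (b : ∀ m ∈ S, ∀ i ∈ (B[m]?.map Node.inp).getD [], i ∈ S) (c : ∀ m ∈ S, Tr B z z' m)
    (d : ∀ m < B.length, ∀ p ∈ B[m]?.bind Node.partner, (m ∈ S ↔ p ∈ S)) : Par B := by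
  have : ∀ m, Tr B z z' m ↔ m ∈ S := fun m => ⟨fun h => by
    induction h with
    | left => exact a.1
    | right => exact a.2
    | step m i n _ hn hi ih => exact b m ih i (by simpa [hn] using hi), c m⟩
  refine ⟨z, z', ζ, h1, h2, fun c n p e f => ?_⟩
  rw [this, this]
  exact d c (List.getElem?_eq_some_iff.1 e).1 p (by simp [e, f])

theorem result : ∃ φ, DA φ ∧ ¬ DAs φ := by
  refine ⟨φ0, ?_, fun h => start h (fun s m n hm => ?_) ?_⟩
  · refine .nor _ 0 _ _ ⟨_, rfl, rfl⟩ <| .cc _ 1 _ _ ⟨_, rfl, rfl⟩ <| .cc _ 2 _ _ ⟨_, rfl, rfl⟩ <|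
      .or _ 3 _ _ ⟨_, rfl, rfl⟩ (.stop _ ?_) <| .or _ 5 _ _ ⟨_, rfl, rfl⟩ (.stop _ ?_) <|
      .mp _ 4 7 _ _ ⟨_, rfl, rfl⟩ ⟨_, rfl, rfl⟩ <| .mp _ 6 8 _ _ ⟨_, rfl, rfl⟩ ⟨_, rfl, rfl⟩ (.stop _ ?_)
    · refine par (z := 7) (z' := 4) [7, 4, 3, 1, 0] ⟨_, rfl, rfl⟩ ⟨_, rfl, rfl⟩ (by decide) (by decide) ?_ (by decide)
      simp only [List.forall_mem_cons]
      exact ⟨.left, .right, .step 7 3 _ .left rfl (.head _), .step 4 1 _ .right rfl (.head _),
        .step 1 0 _ (.step 4 1 _ .right rfl (.head _)) rfl (.head _), nofun⟩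
    · refine par (z := 8) (z' := 6) [8, 6, 5, 2, 0] ⟨_, rfl, rfl⟩ ⟨_, rfl, rfl⟩ (by decide) (by decide) ?_ (by decide)
      simp only [List.forall_mem_cons]
      exact ⟨.left, .right, .step 8 5 _ .left rfl (.head _), .step 6 2 _ .right rfl (.head _),
        .step 2 0 _ (.step 6 2 _ .right rfl (.head _)) rfl (.head _), nofun⟩
    · refine par (z := 9) (z' := 10) [9, 10, 4, 7, 6, 8, 3, 5, 1, 2, 0] ⟨_, rfl, rfl⟩ ⟨_, rfl, rfl⟩ (by decide)
        (by decide) ?_ (by decide)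
      simp only [List.forall_mem_cons]
      exact ⟨.left, .right, .step 9 4 _ .left rfl (.head _), .step 9 7 _ .left rfl (.tail _ (.head _)),
        .step 10 6 _ .right rfl (.head _), .step 10 8 _ .right rfl (.tail _ (.head _)),
        .step 7 3 _ (.step 9 7 _ .left rfl (.tail _ (.head _))) rfl (.head _),
        .step 8 5 _ (.step 10 8 _ .right rfl (.tail _ (.head _))) rfl (.head _),
        .step 4 1 _ (.step 9 4 _ .left rfl (.head _)) rfl (.head _),
        .step 6 2 _ (.step 10 6 _ .right rfl (.head _)) rfl (.head _),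
        .step 1 0 _ (.step 4 1 _ (.step 9 4 _ .left rfl (.head _)) rfl (.head _)) rfl (.head _), nofun⟩
  · obtain rfl : n = _ := List.mem_singleton.1 (List.mem_of_getElem? hm)
    exact .inr ⟨.inl rfl, nofun⟩
  · rintro i _ ⟨n, hn, rfl⟩
    obtain rfl : n = _ := List.mem_singleton.1 (List.mem_of_getElem? hn)
    exact .inl rfl

end Pool.Agent.Results.MP_b8bcd1_lc.Direct
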